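import Mathlib
import Pool.Agent.Q237.LT.Tot

/-!
# Lang and Silverman's lower bound with constants independent of the degree

All constants are absolute: they depend neither on a number field nor on its degree.

`SPt a b` is the group of the rational points over `L` of the elliptic curve
`E : y² = x³ + a x + b`, `sht P` the height of the `x`-coordinate of `P` (relative to `L`), `chat P`
the canonical height, the limit of `sht (2 ^ k P) / 4 ^ k`, and `chatM M P` the canonical height of
the point `P` of `E ^ g` for the polarization given by the symmetric positive definite matrix `M`.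
The absolute heights are the quotients by the degree of `L`.

For `j ∈ L`, `poleCount j` is the sum of `log N v` over the finite poles `v` of `j`, and `addCount j`
that over the primes `v`, prime to `6` and not poles of `j`, at which all elliptic curves over `L` of
invariant `j` have additive reduction of a type other than `I₀*`: those at which `v(j)` is not
divisible by `3` or `v(j - 1728)` is not divisible by `2`.

(1) SINGLE CURVES. Let `L` be a number field of any degree `d`, and `j ∈ L` with
`poleCount j + addCount j ≥ θ h(j)`, and of absolute height at least `C / θ²`. Then for all elliptic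
curves `E` over `L` of invariant `j` the torsion points of `E(L)` have order at most `28 / θ²`, and
all points `P` of infinite order of all powers `E ^ g`, with all polarizations, have absolute
canonical height at least `θ⁶ / 290000` times `1 + h(j) + (1 / d) ∑ log N v`, the last sum over the
primes of bad reduction. This is the theorem of Hindry and Silverman (`θ` corresponds to the inverse
of the Szpiro ratio) without the dependence on the degree.

(2) EXTENSIONS. For `j ∈ K` with `poleCount j + addCount j / 2 ≥ (θ + κ) h(j)` and of absolute height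
at least `C / θ²`, the same bounds hold over ALL finite extensions `L` of `K`, of whatever degree,
with root discriminant `δ_L ≤ δ_K * H(j) ^ κ` (for example over those which are unramified over `K`),
for all elliptic curves `E` over `L` of invariant `j` (all twists over `L`).

(3) THE EXCEPTIONS ARE VERY FEW. For `κ ≥ 0` and `0 < θ ≤ 1`, the conclusions of (2) hold for all
`j ∈ K` of height at most `B` except at most `(C * B ^ (1 / 3 + 4 (θ + κ) / 3 + ε)) ^ n`, with `n` the
degree of `K` and `C` independent of `K`; there are at least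
`(C⁻¹ * B ^ (2 - ε) * δ_K ^ (- (2 + ε))) ^ n` of them if `B ≥ 16 √δ_K`.

Proof: at every place, finite or infinite, the local height is bounded from below by its value in
terms of the position of the point on the Tate circle, with an error which is a multiple of the
logarithm of `6` at the primes above `6`, an absolute constant at the infinite places and zero
elsewhere, by descent along `P, 2P, 4P, …`. The product formula for the differences of the
`x`-coordinates of `2P, 4P, …, 2NP`, with `N` about `6 / θ²`, gives an inequality for the energies of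
their positions, which are nonnegative up to the diagonal at all places, and gain at the finite
poles of `j`, since there the positions are discrete; at the additive places, half of the pairs of
points are close to each other or far from the cusp. In an extension, the different bounds the
ramification. The exceptional invariants are counted by the ideals of their zeros and poles.
-/

set_option autoImplicit false
set_option linter.unusedSectionVars false

namespace Pool.Agent.Results.MP_9a3c31_nt.DegreeFreeLangSilverman

open NumberField IsDedekindDomain Pool.Agent.TH942 Pool.Agent.TH910.LS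

section Defs

variable {K : Type} [Field K] [NumberField K]

/-- the `j`-invariant of `y² = x³ + a x + b` -/
noncomputable def jInv (a b : K) : K := 6912 * a ^ 3 / (4 * a ^ 3 + 27 * b ^ 2)

/-- The `v`-adic absolute value of the discriminant is not a twelfth power of an absolute value, or
`j` has a pole at `v`. All primes `v` of bad reduction of `y² = x³ + a x + b` which do not divide
`6` have this property. -/
def Bad (a b : K) (v : HeightOneSpectrum (𝓞 K)) : Prop :=
  (∀ u : K, FinitePlace.mk v (4 * a ^ 3 + 27 * b ^ 2) ≠ FinitePlace.mk v u ^ 12) ∨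
    1 < FinitePlace.mk v (jInv a b)

open Classical in
/-- the sum of `log N v` over the finite poles `v` of `j` -/
noncomputable def poleCount (j : K) : ℝ :=
  ∑ᶠ v : HeightOneSpectrum (𝓞 K),
    if 1 < FinitePlace.mk v j then Real.log (Ideal.absNorm v.asIdeal) else 0

/-- `v` does not divide `6`, `j` has no pole at `v`, and `v(j)` is not divisible by `3` or
`v(j - 1728)` is not divisible by `2` -/
def Additive (j : K) (v : HeightOneSpectrum (𝓞 K)) : Prop :=
  FinitePlace.mk v (2 : K) = 1 ∧ FinitePlace.mk v (3 : K) = 1 ∧ FinitePlace.mk v j ≤ 1 ∧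
    ((∀ m : ℤ, FinitePlace.mk v j ≠ (Ideal.absNorm v.asIdeal : ℝ) ^ (3 * m)) ∨
      (∀ m : ℤ, FinitePlace.mk v (j - 1728) ≠ (Ideal.absNorm v.asIdeal : ℝ) ^ (2 * m)))

open Classical in
/-- the sum of `log N v` over the places `v` with `Additive j v` -/
noncomputable def addCount (j : K) : ℝ :=
  ∑ᶠ v : HeightOneSpectrum (𝓞 K),
    if Additive j v then Real.log (Ideal.absNorm v.asIdeal) else 0

/-- the absolute logarithmic height -/
noncomputable def absH (j : K) : ℝ := Height.logHeight₁ j / Module.finrank ℚ K

open Classical in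
/-- For all elliptic curves over `K` of invariant `j`: the orders of the torsion points over `K` are
at most `B`, and the lower bound of Lang and Silverman with constant `c` holds for all points of
infinite order over `K` of all powers, with all polarizations. -/
def LangSilverman (c B : ℝ) (j : K) : Prop :=
  ∀ a b : K, 4 * a ^ 3 + 27 * b ^ 2 ≠ 0 → jInv a b = j →
    (∀ Q : SPt a b, IsOfFinAddOrder Q → (addOrderOf Q : ℝ) ≤ B) ∧
    ∀ S : Finset (HeightOneSpectrum (𝓞 K)), (∀ v ∈ S, Bad a b v) →
      ∀ (g : ℕ) (M : Matrix (Fin g) (Fin g) ℤ), (M.map (Int.cast : ℤ → ℝ)).PosDef →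
      ∀ P : Fin g → SPt a b, ¬ IsOfFinAddOrder P →
        c * (1 + absH j + (∑ v ∈ S, Real.log (Ideal.absNorm v.asIdeal)) / Module.finrank ℚ K) ≤
          chatM M P / Module.finrank ℚ K

variable (K)

/-- the root discriminant `δ_K` -/
noncomputable def rootDisc : ℝ :=
  |(NumberField.discr K : ℝ)| ^ (1 / (Module.finrank ℚ K : ℝ))

/-- the invariants of absolute height at most `B` -/
def Inv (B : ℝ) : Set K :=
  {j | j ≠ 0 ∧ j ≠ 1728 ∧ Height.logHeight₁ j ≤ Module.finrank ℚ K * Real.log B}

variable {K}

/-- The bounds hold, with the constants `c` and `B`, over all finite extensions `L` of `K` with root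
discriminant at most `δ_K * H(j) ^ κ`. -/
def InExtensions (κ c B : ℝ) (j : K) : Prop :=
  ∀ (L : Type) [Field L] [NumberField L] [Algebra K L],
    rootDisc L ≤ rootDisc K * Real.exp (κ * absH j) → LangSilverman c B (algebraMap K L j)

variable (K)

/-- the invariants of height at most `B` for which the bounds with the constants
`θ⁶ / 290000` and `28 / θ²` fail in some extension -/
def Exc (θ κ B : ℝ) : Set K :=
  {j ∈ Inv K B | ¬ InExtensions κ (θ ^ 6 / 290000) (28 / θ ^ 2) j}

end Defs

open Pool.Agent.Y733.UD Pool.Agent.Y733.LS Pool.Agent.W223.AK Pool.Agent.H691R3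
open Pool.Agent.Q237.LS Pool.Agent.Q237.LT

section Aux

variable {K : Type} [Field K] [NumberField K]

open Classical in
theorem poleCount_eq (j : K) : poleCount j = fa j := by
  unfold fa
  rw [← fsum_ite (wa j) (fun v => Real.log (Nv v))]
  unfold poleCount
  refine finsum_congr fun v => ?_
  by_cases h : v ∈ wa j
  · have hp : 1 < FinitePlace.mk v j := mem_wa.1 h
    rw [if_pos h, if_pos hp]
    rfl
  · have hp : ¬ 1 < FinitePlace.mk v j := fun h' => h (mem_wa.2 h')
    rw [if_neg h, if_neg hp]

open Classical in
theorem addCount_eq {j : K} (h0 : j ≠ 0) (h1 : j ≠ 1728) : addCount j = fu j := by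
  unfold fu
  rw [← fsum_ite (wu j) (fun v => Real.log (Nv v))]
  unfold addCount
  refine finsum_congr fun v => ?_
  by_cases h : v ∈ wu j
  · have hp : Additive j v := (mem_wu h0 h1).1 h
    rw [if_pos h, if_pos hp]
    rfl
  · have hp : ¬ Additive j v := fun h' => h ((mem_wu h0 h1).2 h')
    rw [if_neg h, if_neg hp]

open Classical in
theorem ls_iff (c B : ℝ) (j : K) : LangSilverman c B j ↔ Pool.Agent.Q237.LS.LT c B j := by
  have hn := Pool.Agent.Q237.LS.n_pos (K := K)
  unfold LangSilverman Pool.Agent.Q237.LS.LT absH
  have key : ∀ x y z : ℝ, c * (1 + x / Module.finrank ℚ K + y / Module.finrank ℚ K) ≤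
      z / Module.finrank ℚ K ↔ c * (Module.finrank ℚ K + x + y) ≤ z := by
    intro x y z
    have e : c * (1 + x / Module.finrank ℚ K + y / Module.finrank ℚ K) =
        c * (Module.finrank ℚ K + x + y) / Module.finrank ℚ K := by
      field_simp
    rw [e, div_le_div_iff_of_pos_right hn]
  constructor
  · intro h a b hD hj
    obtain ⟨h1, h2⟩ := h a b hD hj
    refine ⟨h1, fun S hS g M hM P hP => ?_⟩
    have h3 := h2 S hS g M hM P hP
    rw [key, ht_log] at h3
    exact h3
  · intro h a b hD hj
    obtain ⟨h1, h2⟩ := h a b hD hj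
    refine ⟨h1, fun S hS g M hM P hP => ?_⟩
    rw [key, ht_log]
    exact h2 S hS g M hM P hP

open Classical in
theorem inExt_of {κ c B : ℝ} {j : K} (h : UT κ c B j) : InExtensions κ c B j := by
  intro L _ _ _ hL
  rw [ls_iff]
  exact h L (rDisc_le hL)

end Aux

/-- single curves -/
theorem part_one : ∃ C : ℝ, 0 < C ∧ ∀ θ : ℝ, 0 < θ → θ ≤ 1 →
    ∀ (L : Type) [Field L] [NumberField L] (j : L), j ≠ 0 → j ≠ 1728 →
      θ * Height.logHeight₁ j ≤ poleCount j + addCount j → C / θ ^ 2 ≤ absH j →
      LangSilverman (θ ^ 6 / 290000) (28 / θ ^ 2) j := by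
  classical
  refine ⟨144 * c8, by have := c8_pos; positivity, ?_⟩
  intro θ hθ hθ1 L _ _ j h0 h1 hf hh
  rw [ls_iff]
  rw [poleCount_eq, addCount_eq h0 h1, ht_log] at hf
  unfold absH at hh
  rw [ht_log] at hh
  have hn := Pool.Agent.Q237.LS.n_pos (K := L)
  have hθ2 : 0 < θ ^ 2 := by positivity
  rw [div_le_div_iff₀ hθ2 hn] at hh
  exact LTU_of h0 h1 hθ hθ1 hf (by linarith)

/-- a single invariant and all extensions -/
theorem part_two : ∃ C : ℝ, 0 < C ∧ ∀ θ κ : ℝ, 0 < θ → θ ≤ 1 →
    ∀ (K : Type) [Field K] [NumberField K] (j : K), j ≠ 0 → j ≠ 1728 →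
      (θ + κ) * Height.logHeight₁ j ≤ poleCount j + addCount j / 2 → C / θ ^ 2 ≤ absH j →
      InExtensions κ (θ ^ 6 / 290000) (28 / θ ^ 2) j := by
  classical
  refine ⟨144 * c8, by have := c8_pos; positivity, ?_⟩
  intro θ κ hθ hθ1 K _ _ j h0 h1 hf hh
  rw [poleCount_eq, addCount_eq h0 h1, ht_log] at hf
  unfold absH at hh
  rw [ht_log] at hh
  have hn := Pool.Agent.Q237.LS.n_pos (K := K)
  have hθ2 : 0 < θ ^ 2 := by positivity
  rw [div_le_div_iff₀ hθ2 hn] at hh
  apply inExt_of
  intro L _ _ _ _ hL
  exact LTU_ext h0 h1 hθ hθ1 hf (by linarith) hL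

/-- the exceptional invariants -/
theorem part_three (θ κ ε : ℝ) (hθ : 0 < θ) (hθ1 : θ ≤ 1) (hκ0 : 0 ≤ κ) (hε : 0 < ε) :
    ∃ C : ℝ, 0 < C ∧
    ∀ (K : Type) [Field K] [NumberField K] (B : ℝ), 1 ≤ B →
      (Inv K B).Finite ∧
      ((Exc K θ κ B).ncard : ℝ) ≤
        (C * B ^ (1 / 3 + 4 / 3 * (θ + κ) + ε)) ^ Module.finrank ℚ K := by
  set R : Prp := fun K _ _ j => InExtensions κ (θ ^ 6 / 290000) (28 / θ ^ 2) j with hR
  obtain ⟨A1, hA1, h1⟩ := log_countU hθ hθ1 hκ0 (half_pos hε) R (fun K _ _ j h => inExt_of h)
  exact countsU R hε h1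

/-- **Main theorem.** All constants are absolute.
(1) The bounds for a single elliptic curve over a number field of any degree.
(2) The bounds for a single invariant `j ∈ K` in all finite extensions `L` of `K` with root
discriminant at most `δ_K * H(j) ^ κ`.
(3) The exceptional invariants: those of height at most `B` for which the lower bound with the
constant `θ⁶ / 290000` or the bound `28 / θ²` for the orders of the torsion points fails for some
elliptic curve over some extension `L` of `K` with root discriminant at most `δ_K * H(j) ^ κ` are at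
most `(C * B ^ (1 / 3 + 4 (θ + κ) / 3 + ε)) ^ n`.
(4) The number of all invariants.
(5) The extension `L = K` is among those considered, and every `j ≠ 0, 1728` is the invariant of a
curve over `K`.
(6) `chat` is the limit of `sht (2 ^ k P) / 4 ^ k`. -/
theorem result :
    (∃ C : ℝ, 0 < C ∧ ∀ θ : ℝ, 0 < θ → θ ≤ 1 →
      ∀ (L : Type) [Field L] [NumberField L] (j : L), j ≠ 0 → j ≠ 1728 →
        θ * Height.logHeight₁ j ≤ poleCount j + addCount j → C / θ ^ 2 ≤ absH j →
        LangSilverman (θ ^ 6 / 290000) (28 / θ ^ 2) j) ∧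
    (∃ C : ℝ, 0 < C ∧ ∀ θ κ : ℝ, 0 < θ → θ ≤ 1 →
      ∀ (K : Type) [Field K] [NumberField K] (j : K), j ≠ 0 → j ≠ 1728 →
        (θ + κ) * Height.logHeight₁ j ≤ poleCount j + addCount j / 2 → C / θ ^ 2 ≤ absH j →
        InExtensions κ (θ ^ 6 / 290000) (28 / θ ^ 2) j) ∧
    (∀ θ κ ε : ℝ, 0 < θ → θ ≤ 1 → 0 ≤ κ → 0 < ε → ∃ C : ℝ, 0 < C ∧
      ∀ (K : Type) [Field K] [NumberField K] (B : ℝ), 1 ≤ B →
        (Inv K B).Finite ∧
        ((Exc K θ κ B).ncard : ℝ) ≤
          (C * B ^ (1 / 3 + 4 / 3 * (θ + κ) + ε)) ^ Module.finrank ℚ K) ∧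
    (∀ ε : ℝ, 0 < ε → ∃ C : ℝ, 0 < C ∧
      ∀ (K : Type) [Field K] [NumberField K] (B : ℝ), 16 * √(rootDisc K) ≤ B →
        (C⁻¹ * B ^ (2 - ε) * rootDisc K ^ (-(2 + ε))) ^ Module.finrank ℚ K ≤
          ((Inv K B).ncard : ℝ)) ∧
    (∀ (K : Type) [Field K] [NumberField K] (κ : ℝ) (j : K), 0 ≤ κ →
      rootDisc K ≤ rootDisc K * Real.exp (κ * absH j) ∧
      (j ≠ 0 → j ≠ 1728 → ∃ a b : K, 4 * a ^ 3 + 27 * b ^ 2 ≠ 0 ∧ jInv a b = j)) ∧
    (∀ (K : Type) [Field K] [NumberField K] [DecidableEq K] (a b : K),
      4 * a ^ 3 + 27 * b ^ 2 ≠ 0 →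
      ∀ P : SPt a b, Filter.Tendsto (fun k : ℕ => sht ((2 ^ k : ℕ) • P) / 4 ^ k) Filter.atTop
        (nhds (chat P))) := by
  refine ⟨part_one, part_two, part_three, fun ε hε => inv_lower hε, ?_, ?_⟩
  · intro K _ _ κ j hκ
    refine ⟨?_, fun h0 h1 => every_inv j h0 h1⟩
    have h1 : 0 ≤ rootDisc K := Real.rpow_nonneg (abs_nonneg _) _
    refine le_mul_of_one_le_right h1 (Real.one_le_exp ?_)
    apply mul_nonneg hκ
    unfold absH
    rw [ht_log]
    exact div_nonneg (ht_nonneg j) (Nat.cast_nonneg _)
  · intro K _ _ _ a b hD P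
    exact (chat_spec hD).1 P

end Pool.Agent.Results.MP_9a3c31_nt.DegreeFreeLangSilverman
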