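import Mathlib
import Pool.Agent.Q103.SDJ.Core
import Pool.Agent.Results.MP_9a3c31_nt.DegreeFreeLangSilverman

/-!
# Lang and Silverman's lower bound for all elliptic curves whose invariant is composed of numbers with
small digits, over all number fields

Let `t` be an integer of a number field `K` all of whose conjugates are at least `T` in absolute
value (the base). The invariant `j ∈ K` is composed of numbers with small digits in the base `t` if
`(j : 1728 - j : -1728)` has coordinates `b k * ∏ i, F i (t) ^ e k i` with pairwise coprime numbers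
`F i (t)` with small digits, at most `D` in all, small `b k`, and exponents at most `T ^ δ`, and the
product of the `F i (t)` which occur with different exponents in the coordinates is squarefree. These
are the invariants of the elliptic curves for which `c₄`, `c₆` and `Δ` are such products, since
`c₄ ^ 3 - c₆ ^ 2 = 1728 Δ`.

We prove, unconditionally and for all number fields at once, the lower bound of Lang and Silverman,
with absolute constants, for all these invariants, without exceptions: for all curves over `K` of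
invariant `j`, all powers, all polarizations and all points of infinite order, and over all
extensions of small root discriminant. The torsion points have order at most `1008` over `K`.
-/

set_option autoImplicit false

namespace Pool.Agent.Results.MP_9a3c31_nt.SmallDigitInvariants

open Polynomial IsDedekindDomain NumberField
open Pool.Agent.Results.MP_a793bb_nt.SmallDigitPoints (Small point unequal)
open Pool.Agent.Results.MP_9a3c31_nt.DegreeFreeLangSilverman

/-- The invariant `j` is composed of numbers with small digits in the base `t`: up to a common factor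
`s` the numbers `j`, `1728 - j` and `- 1728` are products `b k * ∏ i, F i (t) ^ e k i` as in `Small`,
not all exponent vectors are the same, and the product of the `F i (t)` with different exponents is
squarefree. -/
def Composed {K : Type} [Field K] [NumberField K] (D : ℕ) (δ T : ℝ) (t : 𝓞 K) (j : K) : Prop :=
  ∃ (n : ℕ) (F : Fin n → (𝓞 K)[X]) (b : Fin 3 → 𝓞 K) (e : Fin 3 → Fin n → ℕ) (s : K),
    Small D δ T t F b e ∧ (unequal e).Nonempty ∧
    Squarefree (Ideal.span {∏ i ∈ unequal e, (F i).eval t}) ∧ s ≠ 0 ∧
    (point t F b e 0 : K) = s * j ∧ (point t F b e 1 : K) = s * (1728 - j) ∧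
    (point t F b e 2 : K) = -(s * 1728)

open Pool.Agent.Q103.SDV Pool.Agent.Q103.SDJ in
private theorem main (D : ℕ) (C : ℝ) : ∃ δ : ℝ, 0 < δ ∧ ∃ T₀ : ℝ, 1 ≤ T₀ ∧ ∀ T : ℝ, T₀ ≤ T →
    ∀ (K : Type) [Field K] [NumberField K] (t : 𝓞 K) (j : K), Composed D δ T t j →
      j ≠ 0 ∧ j ≠ 1728 ∧ C ≤ absH j ∧
      1 / 6 * Height.logHeight₁ j ≤ poleCount j + addCount j ∧
      1 / 12 * Height.logHeight₁ j ≤ poleCount j + addCount j / 2 := by
  classical
  obtain ⟨δ, hδ, T₀, hT₀, h⟩ := jcount D (1 / 2) C (by norm_num)
  refine ⟨δ, hδ, T₀, hT₀, ?_⟩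
  intro T hT K _ _ t j hj
  obtain ⟨n, F, b, e, s, h1, h2, h3, hs, e0, e1, e2⟩ := hj
  obtain ⟨c0, c1, c2, c3, c4⟩ := h T hT K t (point t F b e) j ⟨n, F, b, e, h1, h2, h3, rfl⟩
    ⟨s, hs, e0, e1, e2⟩
  have hp : poleCount j = scount (fun v => 1 < FinitePlace.mk v j) := by
    unfold poleCount scount
    exact finsum_congr fun v => by congr
  have ha : addCount j = scount (AddP j) := by
    unfold addCount scount
    exact finsum_congr fun v => by congr
  have hp0 : 0 ≤ poleCount j := by
    unfold poleCount
    exact finsum_nonneg fun v => by split_ifs; exacts [Real.log_natCast_nonneg _, le_rfl]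
  have hT0 : 0 ≤ Real.log T := Real.log_nonneg (hT₀.trans hT)
  have hl : 0 ≤ lN t := le_trans (mul_nonneg (Nat.cast_nonneg _) hT0) c2
  rw [← hp, ← ha] at c4
  exact ⟨c0, c1, c3, by linarith, by linarith⟩

/-- **Main theorem.** For all `D` there are `δ > 0` and `T₀` such that for all `T ≥ T₀`, all number
fields `K`, all bases `t` and all `j ∈ K` composed of numbers with small digits:
(1) for all elliptic curves over `K` of invariant `j`, the torsion points over `K` have order at most
`1008`, and all points of infinite order over `K` of all powers, with all polarizations, have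
absolute canonical height at least `(1 / 6) ^ 6 / 290000` times
`1 + h(j) + (1 / [K : ℚ]) ∑ log N v`, the last sum over the primes of bad reduction;
(2) for all `θ > 0` and `κ ≥ 0` with `θ + κ ≤ 1 / 12` (and `δ`, `T₀` depending also on `θ`) the same
holds with the constants `θ ^ 6 / 290000` and `28 / θ ^ 2` over all finite extensions `L` of `K`, of
whatever degree, with root discriminant at most `δ_K * H(j) ^ κ`. -/
theorem result (D : ℕ) :
    (∃ δ : ℝ, 0 < δ ∧ ∃ T₀ : ℝ, 1 ≤ T₀ ∧ ∀ T : ℝ, T₀ ≤ T →
      ∀ (K : Type) [Field K] [NumberField K] (t : 𝓞 K) (j : K), Composed D δ T t j →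
        LangSilverman ((1 / 6) ^ 6 / 290000) 1008 j) ∧
    (∀ θ : ℝ, 0 < θ → ∃ δ : ℝ, 0 < δ ∧ ∃ T₀ : ℝ, 1 ≤ T₀ ∧ ∀ T : ℝ, T₀ ≤ T →
      ∀ (K : Type) [Field K] [NumberField K] (t : 𝓞 K) (j : K), Composed D δ T t j →
        ∀ κ : ℝ, 0 ≤ κ → θ + κ ≤ 1 / 12 →
        InExtensions κ (θ ^ 6 / 290000) (28 / θ ^ 2) j) := by
  constructor
  · obtain ⟨C, hC, hLS⟩ := part_one
    obtain ⟨δ, hδ, T₀, hT₀, h⟩ := main D (C / (1 / 6) ^ 2)
    refine ⟨δ, hδ, T₀, hT₀, ?_⟩
    intro T hT K _ _ t j hj
    obtain ⟨h0, h1, h2, h3, -⟩ := h T hT K t j hj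
    have h4 := hLS (1 / 6) (by norm_num) (by norm_num) K j h0 h1 h3 h2
    have h5 : (28 : ℝ) / (1 / 6) ^ 2 = 1008 := by norm_num
    rwa [h5] at h4
  · intro θ hθ
    obtain ⟨C, hC, hLS⟩ := part_two
    obtain ⟨δ, hδ, T₀, hT₀, h⟩ := main D (C / θ ^ 2)
    refine ⟨δ, hδ, T₀, hT₀, ?_⟩
    intro T hT K _ _ t j hj κ hκ hθκ
    obtain ⟨h0, h1, h2, -, h3⟩ := h T hT K t j hj
    refine hLS θ κ hθ (by linarith) K j h0 h1 (le_trans ?_ h3) h2
    exact mul_le_mul_of_nonneg_right hθκ (Height.zero_le_logHeight₁ j)

end Pool.Agent.Results.MP_9a3c31_nt.SmallDigitInvariants
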