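import Pool.Agent.Q183.AM.J4
import Pool.Agent.Results.MP_9a3c31_nt.DegreeFreeLangSilverman

/-!
# Lang and Silverman's lower bound along linear recurrences

Let `g_j` be finitely many sequences of integers of a number field `K` with linear recurrences with
constant coefficients, and let `A_i(t) = κ_i μ_i ^ t ∏ g_j(t) ^ e_ij`, `i = 0, 1, 2`, with
`A_0 + A_1 + A_2 = 0`. The invariants `j_t = -1728 A_0(t) / A_2(t)` are those of the elliptic curves
with `c₄³ : - c₆² : - 1728 Δ = A_0(t) : A_1(t) : A_2(t)`, for example of all families of elliptic curves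
whose coefficients have linear recurrences.

The lower bound of Lang and Silverman, with absolute constants, holds for almost all members of the
family, and for all large members whose heights grow linearly, provided that the product of the
`g_j(s)` with unequal exponents is squarefree up to a factor of small norm.
-/

set_option autoImplicit false

namespace Pool.Agent.Results.MP_9a3c31_nt.InvariantsAlongRecurrences

open NumberField Pool.Agent.Results.MP_9a3c31_nt.DegreeFreeLangSilverman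

variable {K : Type} [Field K] [NumberField K] {J : Type} [Fintype J]

/-- `A_i(t) = κ_i μ_i ^ t ∏ g_j(t) ^ e_ij` -/
def A (κ μ : Fin 3 → 𝓞 K) (g : J → ℕ → 𝓞 K) (e : Fin 3 → J → ℕ) (i : Fin 3) (t : ℕ) : 𝓞 K :=
  κ i * μ i ^ t * ∏ j, g j t ^ e i j

/-- the invariant `j_t = -1728 A_0(t) / A_2(t)` -/
noncomputable def inv (κ μ : Fin 3 → 𝓞 K) (g : J → ℕ → 𝓞 K) (e : Fin 3 → J → ℕ) (t : ℕ) : K :=
  -(1728 * (A κ μ g e 0 t : K) / (A κ μ g e 2 t : K))

/-- the indices `j` with exponents `e_0j, e_1j, e_2j` which are not all equal -/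
def uneq (e : Fin 3 → J → ℕ) : Finset J :=
  Finset.univ.filter fun j => ¬ (e 0 j = e 1 j ∧ e 1 j = e 2 j)

/-- `A_2(s) ≠ 0`, the invariant `j_s` is not in `Λ`, and the product of the `g_j(s)` with unequal
exponents is the product of a squarefree ideal and of an ideal prime to it of norm at most
`exp (ρ h(j_s))` -/
def Adm (κ μ : Fin 3 → 𝓞 K) (g : J → ℕ → 𝓞 K) (e : Fin 3 → J → ℕ) (Λ : Set K) (ρ : ℝ) (s : ℕ) : Prop :=
  A κ μ g e 2 s ≠ 0 ∧ inv κ μ g e s ∉ Λ ∧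
    ∃ 𝔞 𝔟 : Ideal (𝓞 K), Ideal.span {∏ j ∈ uneq e, g j s} = 𝔞 * 𝔟 ∧ Squarefree 𝔞 ∧
      IsCoprime 𝔞 𝔟 ∧ Real.log (Ideal.absNorm 𝔟) ≤ ρ * Height.logHeight₁ (inv κ μ g e s)

/-- The property `P` of the invariants holds (1) for almost all `s` with `Adm`: for every `η > 0`
there are at most `η n` exceptions among any `n` consecutive integers, for `n` large and from some
point on; (2) for all large `s` with `Adm` and `h(j_s) ≥ c s`, for every `c > 0`. -/
def ForMost (κ μ : Fin 3 → 𝓞 K) (g : J → ℕ → 𝓞 K) (e : Fin 3 → J → ℕ) (Λ : Set K) (ρ : ℝ)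
    (P : K → Prop) : Prop :=
  (∀ η : ℝ, 0 < η → ∃ T z : ℕ, ∀ t n : ℕ, z ≤ t → T ≤ n →
    (({s | t ≤ s ∧ s < t + n ∧ Adm κ μ g e Λ ρ s ∧ ¬ P (inv κ μ g e s)}.ncard : ℕ) : ℝ) ≤ η * n) ∧
  ∀ c : ℝ, 0 < c → ∃ z : ℕ, ∀ s : ℕ, z ≤ s → Adm κ μ g e Λ ρ s →
    c * s ≤ Height.logHeight₁ (inv κ μ g e s) → P (inv κ μ g e s)

open Pool.Agent.Q183.AM Pool.Agent.Q103.SDV in
theorem main (g : J → ℕ → 𝓞 K)
    (hg : ∀ j, ∃ E : LinearRecurrence (𝓞 K), E.IsSolution (g j)) (κ μ : Fin 3 → 𝓞 K)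
    (hμ : ∀ i, μ i ≠ 0) (e : Fin 3 → J → ℕ) (hsum : ∀ t, ∑ i, A κ μ g e i t = 0) :
    ∃ Λ : Set K, Λ.Finite ∧ ∀ ρ θ : ℝ, ρ + θ < 1 / 6 → ∀ (H : ℝ) (P : K → Prop),
      (∀ j : K, j ≠ 0 → j ≠ 1728 → H ≤ absH j →
        θ * Height.logHeight₁ j ≤ poleCount j + addCount j → P j) → ForMost κ μ g e Λ ρ P := by
  classical
  obtain ⟨Λ, hΛ, h⟩ := jfinal g hg κ μ hμ e hsum
  have hd : (0 : ℝ) < Module.finrank ℚ K := by exact_mod_cast Module.finrank_pos
  refine ⟨Λ, hΛ, fun ρ θ hρθ H P hP => ?_⟩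
  have key : ∀ s, JGood κ μ g e θ (H * Module.finrank ℚ K) s → P (inv κ μ g e s) := by
    rintro s ⟨h1, h2, h3, h4⟩
    have hp : poleCount (jv κ μ g e s) = scount (fun v => 1 < FinitePlace.mk v (jv κ μ g e s)) := by
      unfold poleCount scount
      exact finsum_congr fun v => by congr
    have ha : addCount (jv κ μ g e s) = scount (AddP (jv κ μ g e s)) := by
      unfold addCount scount
      exact finsum_congr fun v => by congr
    refine hP (jv κ μ g e s) h1 h2 ?_ ?_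
    · unfold absH
      rw [le_div_iff₀ hd]
      exact h3
    · rw [hp, ha]
      exact h4
  obtain ⟨h1, h2⟩ := h ρ θ hρθ (H * Module.finrank ℚ K)
  refine ⟨fun η hη => ?_, fun c hc => ?_⟩
  · obtain ⟨T, z, h3⟩ := h1 η hη
    refine ⟨T, z, fun t n ht hn => le_trans ?_ (h3 t n ht hn)⟩
    have h4 : {s | t ≤ s ∧ s < t + n ∧ Adm κ μ g e Λ ρ s ∧ ¬ P (inv κ μ g e s)} ⊆
        {s | t ≤ s ∧ s < t + n ∧ Pool.Agent.Q183.AR.term κ μ g e 2 s ≠ 0 ∧ jv κ μ g e s ∉ Λ ∧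
          NearSqf κ μ g e ρ s ∧ ¬ JGood κ μ g e θ (H * Module.finrank ℚ K) s} := by
      rintro s ⟨k1, k2, ⟨k3, k4, k5⟩, k6⟩
      exact ⟨k1, k2, k3, k4, k5, fun h => k6 (key s h)⟩
    exact_mod_cast Set.ncard_le_ncard h4
      ((Set.finite_Ico t (t + n)).subset fun _ hs => ⟨hs.1, hs.2.1⟩)
  · obtain ⟨z, h3⟩ := h2 c hc
    refine ⟨z, fun s hs ⟨k3, k4, k5⟩ hh => key s (h3 s hs k3 k4 k5 hh)⟩

/-- **Main theorem.** There is a finite set `Λ` of invariants such that for `ρ ≥ 0`, for most `s` with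
`Adm`:
(1) if `θ > 0` and `ρ + θ < 1 / 6`: for all elliptic curves over `K` of invariant `j_s`, the torsion
points over `K` have order at most `28 / θ ^ 2`, and all points of infinite order of all powers, with
all polarizations, have absolute canonical height at least `θ ^ 6 / 290000` times
`1 + h(j_s) + (1 / [K : ℚ]) ∑ log N v`, the last sum over the primes of bad reduction;
(2) if `θ > 0`, `κ ≥ 0` and `ρ / 2 + θ + κ < 1 / 12`, the same over all finite extensions `L` of `K`,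
of whatever degree, with root discriminant at most `δ_K * H(j_s) ^ κ`. -/
theorem result (g : J → ℕ → 𝓞 K)
    (hg : ∀ j, ∃ E : LinearRecurrence (𝓞 K), E.IsSolution (g j)) (κ μ : Fin 3 → 𝓞 K)
    (hμ : ∀ i, μ i ≠ 0) (e : Fin 3 → J → ℕ) (hsum : ∀ t, ∑ i, A κ μ g e i t = 0) :
    ∃ Λ : Set K, Λ.Finite ∧
      (∀ ρ θ : ℝ, 0 ≤ ρ → 0 < θ → ρ + θ < 1 / 6 →
        ForMost κ μ g e Λ ρ (LangSilverman (θ ^ 6 / 290000) (28 / θ ^ 2))) ∧
      (∀ ρ θ κ' : ℝ, 0 ≤ ρ → 0 < θ → 0 ≤ κ' → ρ / 2 + θ + κ' < 1 / 12 →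
        ForMost κ μ g e Λ ρ (InExtensions κ' (θ ^ 6 / 290000) (28 / θ ^ 2))) := by
  classical
  obtain ⟨Λ, hΛ, h⟩ := main g hg κ μ hμ e hsum
  obtain ⟨C₁, hC₁, hLS₁⟩ := part_one
  obtain ⟨C₂, hC₂, hLS₂⟩ := part_two
  refine ⟨Λ, hΛ, fun ρ θ hρ hθ hρθ => ?_, fun ρ θ κ' hρ hθ hκ' hρθ => ?_⟩
  · exact h ρ θ hρθ (C₁ / θ ^ 2) _ fun j h0 h1728 hH hj =>
      hLS₁ θ hθ (by linarith) K j h0 h1728 hj hH
  · refine h ρ (2 * (θ + κ')) (by linarith) (C₂ / θ ^ 2) _ fun j h0 h1728 hH hj =>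
      hLS₂ θ κ' hθ (by linarith) K j h0 h1728 ?_ hH
    have hp0 : 0 ≤ poleCount j := by
      unfold poleCount
      exact finsum_nonneg fun v => by split_ifs; exacts [Real.log_natCast_nonneg _, le_rfl]
    linarith

end Pool.Agent.Results.MP_9a3c31_nt.InvariantsAlongRecurrences
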