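import Mathlib
import Pool.Agent.Q271.TP.Number
import Pool.Agent.Results.MP_9a3c31_nt.DegreeFreeLangSilverman

/-!
# The lower bound of Lang and Silverman in all one-parameter families of elliptic curves, for almost
# all parameters over all fields of bounded degree, and over all extensions of these fields of small
# root discriminant

Let `K` be a number field and `j = F/G` a nonconstant rational function over `K`, `F` and `G` coprime.
Let `D = max(deg F, deg G)`. There is `A` such that for all `n`, `0 < θ ≤ 1`, `κ ≥ 0` and `ε > 0` there is `C` with the following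
property. Let `L` be ANY extension of `K` of degree at most `n` over `ℚ`, and `X ≥ 1`. For all `t ∈ L` of
(relative, multiplicative) height at most `X` (there are about `X ^ 2`), except for at most
`C * X ^ (1 + D (θ + κ) + ε)` of them, `j(t)` is finite and the bounds of `DegreeFreeLangSilverman` hold
over ALL finite extensions `M` of `L`, of whatever degree, with root discriminant
`δ_M ≤ δ_L * H(j(t)) ^ κ`: for all elliptic curves `E` over `M` of invariant `j(t)` the torsion points
over `M` have order at most `28 / θ ^ 2`, and the points of infinite order over `M` of all powers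
`E ^ g`, with all polarizations, have absolute canonical height at least `θ ^ 6 / 290000` times
`1 + h(j(t)) + (1 / [M : ℚ]) ∑ log N v`, the last sum over the primes of bad reduction. If `F/G` has at
least two different poles on the projective line over the algebraic closure, there are at most
`C * X ^ (A (θ + κ) + ε)` exceptions.

Proof: the bounds hold if the finite poles of `j(t)` have a product of norms of at least
`H(j(t)) ^ (θ + κ)` (`DegreeFreeLangSilverman`). If it is smaller, the number `G(t)` (or `t`, if `G` is
constant), respectively the number `(t - π) / (t - ρ)` for two poles `π`, `ρ`, is supported on a set of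
primes of small total weight, up to the poles of `t` in the first case; the number of such elements
of bounded height is bounded uniformly in the field (helper673, `Pool.Agent.Y673.Cnt`).
-/

set_option autoImplicit false

namespace Pool.Agent.Results.MP_9a3c31_nt.OneParameterFamilies

open NumberField IsDedekindDomain Polynomial
open Pool.Agent.Results.MP_9a3c31_nt.DegreeFreeLangSilverman

/-- The exceptional parameters: the `t ∈ L` of relative height at most `X` such that `G(t) = 0` or the
bounds with the constants `θ ^ 6 / 290000` and `28 / θ ^ 2` fail for `j = F(t)/G(t)` over some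
extension of `L` with root discriminant at most `δ_L * H(j) ^ κ`. -/
def Exceptional {K : Type} [Field K] (F G : K[X]) (L : Type) [Field L] [NumberField L]
    [Algebra K L] (θ κ X : ℝ) : Set L :=
  {t | Height.mulHeight₁ t ≤ X ∧ ¬ ((G.map (algebraMap K L)).eval t ≠ 0 ∧
    InExtensions κ (θ ^ 6 / 290000) (28 / θ ^ 2)
      ((F.map (algebraMap K L)).eval t / (G.map (algebraMap K L)).eval t))}

/-- `F/G` has at least two different poles on the projective line over the algebraic closure. -/
def TwoPoles (K : Type) [Field K] (F G : K[X]) : Prop :=
  (∃ x y : AlgebraicClosure K, x ≠ y ∧ aeval x G = 0 ∧ aeval y G = 0) ∨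
    (0 < G.natDegree ∧ G.natDegree < F.natDegree)

/-- **Main theorem.**
(1) The number of the exceptional parameters, for every nonconstant rational function `F/G`, in all
fields of bounded degree, without and with the condition that there are two poles.
(2) The number of all parameters. -/
theorem result :
    (∀ (K : Type) [Field K] [NumberField K] (F G : K[X]), IsCoprime F G → G ≠ 0 →
      (0 < F.natDegree ∨ 0 < G.natDegree) → ∃ A : ℝ, 0 < A ∧
      ∀ (n : ℕ) (θ κ ε : ℝ), 0 < θ → θ ≤ 1 → 0 ≤ κ → 0 < ε → ∃ C : ℝ, 0 < C ∧
        ∀ (L : Type) [Field L] [NumberField L] [Algebra K L], Module.finrank ℚ L ≤ n →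
          ∀ X : ℝ, 1 ≤ X → (Exceptional F G L θ κ X).Finite ∧
            ((Exceptional F G L θ κ X).ncard : ℝ) ≤
              C * X ^ (1 + (max F.natDegree G.natDegree : ℕ) * (θ + κ) + ε) ∧
            (TwoPoles K F G →
              ((Exceptional F G L θ κ X).ncard : ℝ) ≤ C * X ^ (A * (θ + κ) + ε))) ∧
    (∀ ε : ℝ, 0 < ε → ∃ C : ℝ, 0 < C ∧
      ∀ (L : Type) [Field L] [NumberField L] (B : ℝ), 16 * √(rootDisc L) ≤ B →
        (C⁻¹ * B ^ (2 - ε) * rootDisc L ^ (-(2 + ε))) ^ Module.finrank ℚ L ≤
          (({t : L | Height.mulHeight₁ t ≤ B ^ Module.finrank ℚ L} : Set L).ncard : ℝ)) := by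
  refine ⟨?_, fun ε hε => Pool.Agent.Q271.TP.params_lower hε⟩
  intro K _ _ F G hFG hG hne
  obtain ⟨A, hA, h⟩ := Pool.Agent.Q271.TP.family_count K F G hFG hG hne
  refine ⟨A, hA, fun n θ κ ε hθ hθ1 hκ hε => ?_⟩
  obtain ⟨C₀, hC₀, hLS⟩ := part_two
  obtain ⟨C, hC, h2⟩ := h n (θ + κ) ε (C₀ / θ ^ 2) (by positivity) hε
  refine ⟨C, hC, fun L _ _ _ hL X hX => ?_⟩
  have hn : (0 : ℝ) < Module.finrank ℚ L := by exact_mod_cast Module.finrank_pos
  exact h2 L hL (fun j => InExtensions κ (θ ^ 6 / 290000) (28 / θ ^ 2) j) (by
    intro j h0 h1 hf hh
    refine hLS θ κ hθ hθ1 L j h0 h1 ?_ ?_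
    · rw [poleCount_eq]
      have : 0 ≤ addCount j := by
        unfold addCount
        exact finsum_nonneg fun v => by split_ifs; exacts [Real.log_natCast_nonneg _, le_rfl]
      linarith
    · unfold absH
      rw [le_div_iff₀ hn]
      exact hh) X hX

end Pool.Agent.Results.MP_9a3c31_nt.OneParameterFamilies
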